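import Mathlib

namespace Pool.Agent.Results.MP_e34f63_pr.Chain

/-- Finite plane forests with vertex types in `Fin 2`: `cons i c r` is a first tree with root type
`i` and forest of subtrees `c`, followed by the remaining trees `r`. -/
inductive Fo
  | nil : Fo
  | cons : Fin 2 → Fo → Fo → Fo

/-- The word of root types. -/
def Fo.word : Fo → List (Fin 2)
  | .nil => []
  | .cons i _ r => i :: r.word

/-- Number of vertices of type `k`. -/
def Fo.N (k : Fin 2) : Fo → ℕ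
  | .nil => 0
  | .cons i c r => (if i = k then 1 else 0) + c.N k + r.N k

/-- Product over the vertices `v` of `ζ^(type v)(types of the children of v)`. -/
noncomputable def Fo.P (ζ : Fin 2 → PMF (List (Fin 2))) : Fo → ENNReal
  | .nil => 1
  | .cons i c r => ζ i c.word * c.P ζ * r.P ζ

/-- Single trees with root type `i` and `N_1 + N_2 = g`, i.e. `Γ = (1, 1)`. -/
def E (i : Fin 2) (g : ℝ) : Set Fo := {T | T.word = [i] ∧ (T.N 0 : ℝ) + T.N 1 = g}

/-- Probability of the conditioning event. -/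
noncomputable def Z (ζ : Fin 2 → PMF (List (Fin 2))) (i : Fin 2) (g : ℝ) : ENNReal :=
  ∑' T : E i g, T.1.P ζ

noncomputable def half (a b : List (Fin 2)) : PMF (List (Fin 2)) :=
  (PMF.uniformOfFintype Bool).map fun c => if c then a else b

noncomputable def z1 : Fin 2 → PMF (List (Fin 2)) := ![PMF.pure [1], half [] [0]]
noncomputable def z2 : Fin 2 → PMF (List (Fin 2)) := ![half [] [1], half [] [0]]

theorem half_ne (a b x : List (Fin 2)) : half a b x ≠ 0 ↔ x = a ∨ x = b := by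
  rw [← PMF.mem_support_iff, half, PMF.support_map, PMF.support_uniformOfFintype]
  simp [eq_comm, or_comm]

/-- the chain with `n + 1` vertices and alternating types -/
def ch : Fin 2 → ℕ → Fo
  | i, 0 => .cons i .nil .nil
  | i, n + 1 => .cons i (ch (i + 1) n) .nil

theorem ch_ty (i : Fin 2) (n : ℕ) : (ch i n).word = [i] := by cases n <;> rfl

theorem ch_N (n : ℕ) : ∀ i : Fin 2, (ch i n).N 0 + (ch i n).N 1 = n + 1 := by
  induction n with
  | zero => intro i; fin_cases i <;> simp [ch, Fo.N]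
  | succ n ih =>
    intro i
    have := ih (i + 1)
    fin_cases i <;> simp [ch, Fo.N] at this ⊢ <;> omega

theorem word_nil : ∀ r : Fo, r.word = [] → r = .nil
  | .nil, _ => rfl
  | .cons _ _ _, h => by simp [Fo.word] at h

theorem supp (ζ : Fin 2 → PMF (List (Fin 2))) (h : ∀ i x, ζ i x ≠ 0 → x = [] ∨ x = [i + 1]) :
    ∀ (T : Fo) (i : Fin 2), T.word = [i] → T.P ζ ≠ 0 → ∃ n, T = ch i n
  | .nil, _, hw, _ => by simp [Fo.word] at hw
  | .cons j c r, i, hw, hT => by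
    simp only [Fo.word, List.cons.injEq] at hw
    obtain ⟨rfl, hr⟩ := hw
    obtain rfl := word_nil r hr
    simp only [Fo.P, ne_eq, mul_eq_zero, not_or] at hT
    rcases h j _ hT.1.1 with e | e
    · exact ⟨0, by rw [word_nil c e]; rfl⟩
    · obtain ⟨n, hn⟩ := supp ζ h c _ e hT.1.2
      exact ⟨n + 1, by rw [hn]; rfl⟩

theorem h1 : ∀ i x, z1 i x ≠ 0 → x = [] ∨ x = [i + 1] := by
  intro i x hx
  fin_cases i
  · right; by_contra hne; exact hx (PMF.pure_apply_of_ne _ _ hne)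
  · exact (half_ne _ _ _).1 hx

theorem h2 : ∀ i x, z2 i x ≠ 0 ↔ x = [] ∨ x = [i + 1] := by
  intro i x
  fin_cases i <;> exact half_ne _ _ _

theorem ch_P (ζ : Fin 2 → PMF (List (Fin 2))) (n : ℕ) : ∀ i, (ch i n).P ζ ≠ ⊤ := by
  induction n with
  | zero => intro i; simp [ch, Fo.P, PMF.apply_ne_top]
  | succ n ih =>
    intro i; simp only [ch, Fo.P, mul_one]
    exact ENNReal.mul_ne_top (PMF.apply_ne_top _ _) (ih _)

theorem ch_P2 (n : ℕ) : ∀ i, (ch i n).P z2 ≠ 0 := by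
  induction n with
  | zero => intro i; simpa [ch, Fo.P, Fo.word] using (h2 i []).2 (Or.inl rfl)
  | succ n ih =>
    intro i; simp only [ch, Fo.P, mul_one, ch_ty]
    exact mul_ne_zero ((h2 i _).2 (Or.inr rfl)) (ih _)

theorem uniq (ζ : Fin 2 → PMF (List (Fin 2))) (h : ∀ i x, ζ i x ≠ 0 → x = [] ∨ x = [i + 1])
    (i : Fin 2) (g : ℝ) (n : ℕ) (hn : ch i n ∈ E i g) (T : Fo) (hT : T ∈ E i g) (hne : T ≠ ch i n) :
    T.P ζ = 0 := by
  by_contra hP
  obtain ⟨m, hm⟩ := supp ζ h T i hT.1 hP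
  have a := hT.2; have b := hn.2
  rw [hm, ← b] at a
  have a' : (ch i m).N 0 + (ch i m).N 1 = (ch i n).N 0 + (ch i n).N 1 := by exact_mod_cast a
  rw [ch_N, ch_N] at a'
  exact hne (by rw [hm, show m = n by omega])

theorem Z_eq (ζ : Fin 2 → PMF (List (Fin 2))) (h : ∀ i x, ζ i x ≠ 0 → x = [] ∨ x = [i + 1])
    (i : Fin 2) (g : ℝ) (n : ℕ) (hn : ch i n ∈ E i g) : Z ζ i g = (ch i n).P ζ :=
  tsum_eq_single (⟨_, hn⟩ : E i g) fun T hT =>
    uniq ζ h i g n hn T.1 T.2 fun e => hT (Subtype.ext e)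

theorem result : ∃ ζ ζ' : Fin 2 → PMF (List (Fin 2)),
    (ζ 0 [1] ≠ 0 ∧ ζ 1 [0] ≠ 0 ∧ ζ 1 [] ≠ 0) ∧
    (∀ i g, Z ζ i g ≠ 0 → Z ζ' i g ≠ 0 ∧ ∀ T ∈ E i g, T.P ζ / Z ζ i g = T.P ζ' / Z ζ' i g) ∧
    ¬ ∀ i x, ζ i x = 0 ↔ ζ' i x = 0 := by
  refine ⟨z1, z2, ⟨by simp [z1], (half_ne _ _ _).2 (Or.inr rfl), (half_ne _ _ _).2 (Or.inl rfl)⟩,
    fun i g hZ => ?_, fun h => ?_⟩
  · obtain ⟨T0, hT0⟩ : ∃ T : E i g, T.1.P z1 ≠ 0 := by
      by_contra hc
      push Not at hc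
      exact hZ (by simp [Z, hc])
    obtain ⟨n, hn⟩ := supp z1 h1 T0.1 i T0.2.1 hT0
    have hm : ch i n ∈ E i g := hn ▸ T0.2
    have h2' := fun i x => (h2 i x).1
    rw [Z_eq z1 h1 i g n hm, Z_eq z2 h2' i g n hm]
    refine ⟨ch_P2 n i, fun T hT => ?_⟩
    by_cases e : T = ch i n
    · rw [e, ENNReal.div_self (hn ▸ hT0) (ch_P _ _ _), ENNReal.div_self (ch_P2 n i) (ch_P _ _ _)]
    · rw [uniq z1 h1 i g n hm T hT e, uniq z2 h2' i g n hm T hT e]; simp
  · exact (h2 0 []).2 (Or.inl rfl) ((h 0 []).1 (by simp [z1]))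

end Pool.Agent.Results.MP_e34f63_pr.Chain
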